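import Mathlib

/-!
# Polarization modules whose Hilbert series is not `h`-positive

For `ℓ = n = 2` and `f = (x₁₁ x₂₂ - x₁₂ x₂₁) ^ 2` the Hilbert series of the polarization module of
`f` is not a nonnegative combination of the `h_μ`.
-/

set_option autoImplicit false
set_option maxHeartbeats 4000000
set_option synthInstance.maxHeartbeats 400000

open MvPolynomial

namespace Pool.Agent.Results.MP_55095a_co.DetSquare

/-- The polynomial ring `ℂ[x_{ij}]`. -/
abbrev R (l n : ℕ) := MvPolynomial (Fin l × Fin n) ℂ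

variable {l n : ℕ}

/-- The multidegree of an exponent vector. -/
def mdeg (a : Fin l × Fin n →₀ ℕ) : Fin l → ℕ := fun i => ∑ j, a (i, j)

/-- The homogeneous part `R_d` of `R` of multidegree `d`. -/
def homPart (n : ℕ) (d : Fin l → ℕ) : Submodule ℂ (R l n) where
  carrier := {g | ∀ a, coeff a g ≠ 0 → mdeg a = d}
  zero_mem' := by
    intro a ha
    exact absurd (coeff_zero a) ha
  add_mem' := by
    intro g h hg hh a ha
    by_cases h1 : coeff a g = 0
    · refine hh a ?_
      intro h2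
      exact ha (by rw [coeff_add, h1, h2, add_zero])
    · exact hg a h1
  smul_mem' := by
    intro c g hg a ha
    refine hg a ?_
    intro h2
    exact ha (by rw [coeff_smul, h2, smul_zero])

/-- The diagonal action of a permutation, `x_{ij} ↦ x_{iσ(j)}`. -/
noncomputable def act (s : Equiv.Perm (Fin n)) (g : R l n) : R l n :=
  rename (fun q : Fin l × Fin n => (q.1, s q.2)) g

/-- `g` is diagonally symmetric. -/
def DiagSymmetric (g : R l n) : Prop := ∀ s : Equiv.Perm (Fin n), act s g = g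

/-- The generalized polarization operator `E^{(p)}_{i,k} = ∑_j x_{ij} ∂_{kj}^p`. -/
noncomputable def E (p : ℕ) (i k : Fin l) (g : R l n) : R l n :=
  ∑ j, X (i, j) * (pderiv (k, j))^[p] g

/-- The subspace `W` contains the `𝔖_n`-orbit of `f` and is closed under the `∂_{ij}` and the
`E^{(p)}_{i,k}`, `p ≥ 1`. -/
def Closed (f : R l n) (W : Submodule ℂ (R l n)) : Prop :=
  (∀ s, act s f ∈ W) ∧ (∀ i j, ∀ g ∈ W, pderiv (i, j) g ∈ W) ∧
    ∀ p, 1 ≤ p → ∀ i k, ∀ g ∈ W, E p i k g ∈ W

/-- The polarization module `M_f`. -/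
noncomputable def polModule (f : R l n) : Submodule ℂ (R l n) := sInf {W | Closed f W}

/-- The Hilbert series of `M_f` is a combination of the `h_μ(q_1, …, q_l)` with `|μ| ≤ deg f` with
nonnegative integer coefficients: `dim (M_f ∩ R_d)` is the coefficient of `q^d` in
`∑ a_μ h_μ`, for all `d`. -/
def HPositive (f : R l n) : Prop :=
  ∃ a : (m : ℕ) → Nat.Partition m → ℕ, ∀ d : Fin l → ℕ,
    Module.finrank ℂ (polModule f ⊓ homPart n d : Submodule ℂ (R l n))
      = coeff (Finsupp.equivFunOnFinite.symm d)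
        (∑ m ∈ Finset.range (f.totalDegree + 1), ∑ μ : Nat.Partition m,
          C (a m μ) * hsymmPart (Fin l) ℕ μ)

/-! ### The example -/

/-- `f = (x₁₁ x₂₂ - x₁₂ x₂₁) ^ 2`. -/
noncomputable def f : R 2 2 := (X (0, 0) * X (1, 1) - X (0, 1) * X (1, 0)) ^ 2

lemma f_symm : DiagSymmetric f := by
  intro s
  have hs : (s 0 = 0 ∧ s 1 = 1) ∨ (s 0 = 1 ∧ s 1 = 0) := by
    revert s; decide
  rcases hs with ⟨h0, h1⟩ | ⟨h0, h1⟩
  · simp only [act, f, map_pow, map_sub, map_mul, rename_X, h0, h1]
  · simp only [act, f, map_pow, map_sub, map_mul, rename_X, h0, h1]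
    ring

lemma td_pderiv {σ : Type*} (i : σ) (g : MvPolynomial σ ℂ) (m : ℕ) (hg : g.totalDegree ≤ m + 1) :
    (pderiv i g).totalDegree ≤ m := by
  rw [g.as_sum, map_sum]
  refine (totalDegree_finsetSum _ _).trans ?_
  refine Finset.sup_le fun a ha => ?_
  rw [pderiv_monomial]
  by_cases h0 : a i = 0
  · simp [h0]
  · refine (totalDegree_monomial_le _ _).trans ?_
    have h1 : a.sum (fun _ e => e) ≤ m + 1 := (le_totalDegree ha).trans hg
    have h2 : a = (a - Finsupp.single i 1) + Finsupp.single i 1 := by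
      rw [tsub_add_cancel_of_le]
      rw [Finsupp.single_le_iff]
      omega
    have h3 : a.sum (fun _ e => e) = (a - Finsupp.single i 1).sum (fun _ e => e) + 1 := by
      conv_lhs => rw [h2]
      rw [Finsupp.sum_add_index' (fun _ => rfl) (fun _ _ _ => rfl), Finsupp.sum_single_index rfl]
    have h4 : (a - Finsupp.single i 1).sum (fun _ e => e) ≤ m := by omega
    exact h4

lemma td_pderiv_zero {σ : Type*} (i : σ) (g : MvPolynomial σ ℂ) (hg : g.totalDegree = 0) :
    pderiv i g = 0 := by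
  rw [totalDegree_eq_zero_iff_eq_C] at hg
  rw [hg, pderiv_C]

lemma td_pderiv' {σ : Type*} (i : σ) (g : MvPolynomial σ ℂ) (m : ℕ) (hg : g.totalDegree ≤ m) :
    (pderiv i g).totalDegree ≤ m - 1 := by
  rcases Nat.eq_zero_or_pos m with h | h
  · subst h
    rw [td_pderiv_zero i g (Nat.le_zero.mp hg)]
    simp
  · exact td_pderiv i g (m - 1) (by omega)

lemma td_iter {σ : Type*} (i : σ) (p : ℕ) (g : MvPolynomial σ ℂ) (m : ℕ) (hg : g.totalDegree ≤ m) :
    ((pderiv i)^[p] g).totalDegree ≤ m - p := by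
  induction p with
  | zero => simpa using hg
  | succ p ih =>
    rw [Function.iterate_succ_apply']
    have := td_pderiv' i _ _ ih
    omega

lemma td_E (p : ℕ) (i k : Fin 2) (g : R 2 2) (m : ℕ) (hg : g.totalDegree ≤ m) :
    (E p i k g).totalDegree ≤ 1 + (m - p) := by
  refine (totalDegree_finsetSum _ _).trans ?_
  refine Finset.sup_le fun j _ => ?_
  refine (totalDegree_mul _ _).trans ?_
  have h1 := td_iter (k, j) p g m hg
  have h2 : (X (i, j) : R 2 2).totalDegree = 1 := totalDegree_X _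
  omega

lemma f_td : f.totalDegree ≤ 4 := by
  have h2 : ∀ q : Fin 2 × Fin 2, (X q : R 2 2).totalDegree = 1 := fun q => totalDegree_X _
  have h1 : (X (0, 0) * X (1, 1) - X (0, 1) * X (1, 0) : R 2 2).totalDegree ≤ 2 := by
    refine (totalDegree_sub _ _).trans ?_
    refine max_le ?_ ?_
    · refine (totalDegree_mul _ _).trans ?_
      rw [h2, h2]
    · refine (totalDegree_mul _ _).trans ?_
      rw [h2, h2]
  refine (totalDegree_pow _ _).trans ?_
  omega

/-- The subspace `ℂ f + (polynomials of degree at most 3)`. -/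
noncomputable def W : Submodule ℂ (R 2 2) :=
  Submodule.span ℂ {f} ⊔ restrictTotalDegree (Fin 2 × Fin 2) ℂ 3

lemma mem_W {g : R 2 2} : g ∈ W ↔ ∃ c : ℂ, ∃ u : R 2 2, u.totalDegree ≤ 3 ∧ g = c • f + u := by
  rw [W, Submodule.mem_sup]
  constructor
  · rintro ⟨y, hy, z, hz, rfl⟩
    obtain ⟨c, rfl⟩ := Submodule.mem_span_singleton.mp hy
    exact ⟨c, z, (mem_restrictTotalDegree _ _ _).mp hz, rfl⟩
  · rintro ⟨c, u, hu, rfl⟩
    exact ⟨c • f, Submodule.smul_mem _ _ (Submodule.mem_span_singleton_self f), u,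
      (mem_restrictTotalDegree _ _ _).mpr hu, rfl⟩

lemma mem_W_of_td {g : R 2 2} (h : g.totalDegree ≤ 3) : g ∈ W :=
  mem_W.mpr ⟨0, g, h, by rw [zero_smul, zero_add]⟩

lemma f_mem_W : f ∈ W := mem_W.mpr ⟨1, 0, by simp, by rw [one_smul, add_zero]⟩

lemma E_add (p : ℕ) (i k : Fin 2) (g h : R 2 2) : E p i k (g + h) = E p i k g + E p i k h := by
  simp only [E]
  rw [← Finset.sum_add_distrib]
  refine Finset.sum_congr rfl fun j _ => ?_
  rw [iterate_map_add, mul_add]

lemma iter_smul (p : ℕ) (q : Fin 2 × Fin 2) (c : ℂ) (g : R 2 2) :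
    (pderiv q)^[p] (c • g) = c • (pderiv q)^[p] g := by
  induction p with
  | zero => rfl
  | succ p ih => rw [Function.iterate_succ_apply', Function.iterate_succ_apply', ih, Derivation.map_smul]

lemma E_smul (p : ℕ) (i k : Fin 2) (c : ℂ) (g : R 2 2) : E p i k (c • g) = c • E p i k g := by
  simp only [E]
  rw [Finset.smul_sum]
  refine Finset.sum_congr rfl fun j _ => ?_
  rw [iter_smul, mul_smul_comm]

lemma pd_f (q : Fin 2 × Fin 2) :
    pderiv q f = 2 * (X (0, 0) * X (1, 1) - X (0, 1) * X (1, 0)) *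
      pderiv q (X (0, 0) * X (1, 1) - X (0, 1) * X (1, 0)) := by
  rw [f, Derivation.leibniz_pow]
  simp only [nsmul_eq_mul, smul_eq_mul]
  ring

lemma E1_f (i k : Fin 2) : ∃ c : ℂ, E 1 i k f = c • f := by
  have h : ∀ q q' : Fin 2 × Fin 2, q ≠ q' → pderiv q (X q' : R 2 2) = 0 := fun q q' hq =>
    pderiv_X_of_ne (Ne.symm hq)
  have e : E 1 i k f = 2 * (X (0, 0) * X (1, 1) - X (0, 1) * X (1, 0)) *
      (X (i, 0) * pderiv (k, 0) (X (0, 0) * X (1, 1) - X (0, 1) * X (1, 0) : R 2 2) +
        X (i, 1) * pderiv (k, 1) (X (0, 0) * X (1, 1) - X (0, 1) * X (1, 0) : R 2 2)) := by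
    simp only [E, Function.iterate_one, Fin.sum_univ_two, pd_f]
    ring
  rw [e]
  fin_cases k
  · have h1 : pderiv ((0 : Fin 2), (0 : Fin 2)) (X (0, 0) * X (1, 1) - X (0, 1) * X (1, 0) : R 2 2)
        = X (1, 1) := by
      rw [map_sub, Derivation.leibniz, Derivation.leibniz, h _ (1, 1) (by decide),
        h _ (0, 1) (by decide), h _ (1, 0) (by decide), pderiv_X_self]
      simp
    have h2 : pderiv ((0 : Fin 2), (1 : Fin 2)) (X (0, 0) * X (1, 1) - X (0, 1) * X (1, 0) : R 2 2)
        = - X (1, 0) := by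
      rw [map_sub, Derivation.leibniz, Derivation.leibniz, h _ (1, 1) (by decide),
        h _ (0, 0) (by decide), h _ (1, 0) (by decide), pderiv_X_self]
      simp
    simp only [Fin.zero_eta, h1, h2]
    fin_cases i
    · refine ⟨2, ?_⟩
      simp only [Fin.zero_eta, f, smul_eq_C_mul, map_ofNat]
      ring
    · refine ⟨0, ?_⟩
      simp only [Fin.mk_one]
      rw [zero_smul]
      ring
  · have h1 : pderiv ((1 : Fin 2), (0 : Fin 2)) (X (0, 0) * X (1, 1) - X (0, 1) * X (1, 0) : R 2 2)
        = - X (0, 1) := by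
      rw [map_sub, Derivation.leibniz, Derivation.leibniz, h _ (1, 1) (by decide),
        h _ (0, 1) (by decide), h _ (0, 0) (by decide), pderiv_X_self]
      simp
    have h2 : pderiv ((1 : Fin 2), (1 : Fin 2)) (X (0, 0) * X (1, 1) - X (0, 1) * X (1, 0) : R 2 2)
        = X (0, 0) := by
      rw [map_sub, Derivation.leibniz, Derivation.leibniz, h _ (0, 0) (by decide),
        h _ (0, 1) (by decide), h _ (1, 0) (by decide), pderiv_X_self]
      simp
    simp only [Fin.mk_one, h1, h2]
    fin_cases i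
    · refine ⟨0, ?_⟩
      simp only [Fin.zero_eta]
      rw [zero_smul]
      ring
    · refine ⟨2, ?_⟩
      simp only [Fin.mk_one, f, smul_eq_C_mul, map_ofNat]
      ring

lemma W_closed : Closed f W := by
  refine ⟨fun s => ?_, fun i j g hg => ?_, fun p hp i k g hg => ?_⟩
  · rw [f_symm s]; exact f_mem_W
  · obtain ⟨c, u, hu, rfl⟩ := mem_W.mp hg
    rw [map_add, Derivation.map_smul]
    refine Submodule.add_mem _ (Submodule.smul_mem _ _ (mem_W_of_td ?_)) (mem_W_of_td ?_)
    · exact td_pderiv' _ _ 4 f_td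
    · exact (td_pderiv' _ _ 3 hu).trans (by norm_num)
  · obtain ⟨c, u, hu, rfl⟩ := mem_W.mp hg
    rw [E_add, E_smul]
    refine Submodule.add_mem _ (Submodule.smul_mem _ _ ?_) (mem_W_of_td ?_)
    · rcases Nat.lt_or_ge 1 p with h | h
      · refine mem_W_of_td ((td_E p i k f 4 f_td).trans ?_)
        omega
      · have : p = 1 := by omega
        subst this
        obtain ⟨d, hd⟩ := E1_f i k
        rw [hd]
        exact Submodule.smul_mem _ _ f_mem_W
    · refine (td_E p i k u 3 hu).trans ?_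
      omega

lemma pol_le_W : polModule f ≤ W := sInf_le W_closed

/-- The exponent vector of `x₁₁² x₂₂²`. -/
noncomputable def m22 : Fin 2 × Fin 2 →₀ ℕ := Finsupp.single (0, 0) 2 + Finsupp.single (1, 1) 2

lemma f_eq : f = monomial (Finsupp.single (0, 0) 2 + Finsupp.single (1, 1) 2) 1
    + monomial (Finsupp.single (0, 0) 1 + Finsupp.single (1, 1) 1 + Finsupp.single (0, 1) 1
      + Finsupp.single (1, 0) 1) (-2)
    + monomial (Finsupp.single (0, 1) 2 + Finsupp.single (1, 0) 2) 1 := by
  have h1 : f = (X (0, 0)) ^ 2 * (X (1, 1)) ^ 2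
      + C (-2) * ((X (0, 0)) ^ 1 * (X (1, 1)) ^ 1 * (X (0, 1)) ^ 1 * (X (1, 0)) ^ 1)
      + (X (0, 1)) ^ 2 * (X (1, 0)) ^ 2 := by
    rw [f, map_neg, map_ofNat]; ring
  rw [h1]
  simp only [X_pow_eq_monomial, monomial_mul, C_mul_monomial, mul_one]

lemma coeff_f : coeff m22 f = 1 := by
  rw [f_eq, m22]
  rw [coeff_add, coeff_add, coeff_monomial, coeff_monomial, coeff_monomial, if_pos rfl, if_neg,
    if_neg]
  · norm_num
  · intro h
    have := DFunLike.congr_fun h (0, 0)
    simp at this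
  · intro h
    have := DFunLike.congr_fun h (0, 0)
    simp at this

lemma mono_mem (a : Fin 2 × Fin 2 →₀ ℕ) (c : ℂ) (d : Fin 2 → ℕ) (h : mdeg a = d) :
    (monomial a c : R 2 2) ∈ homPart 2 d := by
  intro b hb
  rw [coeff_monomial] at hb
  by_cases hab : a = b
  · rw [← hab]; exact h
  · rw [if_neg hab] at hb
    exact absurd rfl hb

lemma f_hom : f ∈ homPart 2 ![2, 2] := by
  rw [f_eq]
  refine Submodule.add_mem _ (Submodule.add_mem _ (mono_mem _ _ _ ?_) (mono_mem _ _ _ ?_))
    (mono_mem _ _ _ ?_)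
  all_goals
    funext i
    fin_cases i <;> simp [mdeg, Fin.sum_univ_two]

lemma coeff_eq_zero_of_td {g : R 2 2} (hg : g.totalDegree ≤ 3) (a : Fin 2 × Fin 2 →₀ ℕ)
    (ha : mdeg a 0 + mdeg a 1 = 4) : coeff a g = 0 := by
  apply coeff_eq_zero_of_totalDegree_lt
  have h : ∑ i ∈ a.support, a i = mdeg a 0 + mdeg a 1 := by
    rw [Finset.sum_subset (Finset.subset_univ _)
      (fun x _ hx => by simpa using hx), Fintype.sum_prod_type, Fin.sum_univ_two]
    rfl
  omega

lemma eq_of_mem {g : R 2 2} (hg : g ∈ W) (d : Fin 2 → ℕ) (hd : d 0 + d 1 = 4)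
    (hgd : g ∈ homPart 2 d) : g = coeff m22 g • f := by
  obtain ⟨c, u, hu, rfl⟩ := mem_W.mp hg
  have hm : mdeg m22 = ![2, 2] := by
    funext i
    fin_cases i <;> simp [mdeg, m22, Fin.sum_univ_two]
  have h0 : coeff m22 u = 0 := coeff_eq_zero_of_td hu m22 (by rw [hm]; rfl)
  have h1 : coeff m22 (c • f + u) = c := by
    rw [coeff_add, coeff_smul, coeff_f, h0, smul_eq_mul, mul_one, add_zero]
  rw [h1]
  ext a
  by_cases h2 : mdeg a 0 + mdeg a 1 = 4
  · rw [coeff_add, coeff_eq_zero_of_td hu a h2, add_zero]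
  · have h3 : coeff a (c • f + u) = 0 := by
      by_contra h
      have := hgd a h
      rw [this] at h2
      exact h2 hd
    have h4 : coeff a f = 0 := by
      by_contra h
      have := f_hom a h
      rw [this] at h2
      exact h2 rfl
    rw [h3, coeff_smul, h4, smul_zero]

lemma dim22 : Module.finrank ℂ (polModule f ⊓ homPart 2 ![2, 2] : Submodule ℂ (R 2 2)) = 1 := by
  have h : (polModule f ⊓ homPart 2 ![2, 2] : Submodule ℂ (R 2 2)) = Submodule.span ℂ {f} := by
    apply le_antisymm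
    · intro g hg
      rw [eq_of_mem (pol_le_W hg.1) ![2, 2] rfl hg.2]
      exact Submodule.smul_mem _ _ (Submodule.mem_span_singleton_self f)
    · rw [Submodule.span_singleton_le_iff_mem]
      refine ⟨?_, f_hom⟩
      refine (Submodule.mem_sInf).mpr ?_
      intro V hV
      have := hV.1 1
      rwa [f_symm] at this
  rw [h]
  apply finrank_span_singleton
  intro h0
  have := coeff_f
  rw [h0, coeff_zero] at this
  exact zero_ne_one this

lemma dim40 : Module.finrank ℂ (polModule f ⊓ homPart 2 ![4, 0] : Submodule ℂ (R 2 2)) = 0 := by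
  have h : (polModule f ⊓ homPart 2 ![4, 0] : Submodule ℂ (R 2 2)) = ⊥ := by
    rw [eq_bot_iff]
    intro g hg
    have h1 := eq_of_mem (pol_le_W hg.1) ![4, 0] rfl hg.2
    have h2 : coeff m22 g = 0 := by
      by_contra h
      have := congrFun (hg.2 m22 h) 0
      simp [mdeg, m22, Fin.sum_univ_two] at this
    rw [h2, zero_smul] at h1
    rw [h1]
    exact Submodule.zero_mem _
  rw [h]
  simp

lemma f_td4 : f.totalDegree = 4 := by
  apply le_antisymm f_td
  by_contra h
  have h1 : coeff m22 f = 0 := coeff_eq_zero_of_td (by omega) m22 (by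
    simp [mdeg, m22, Fin.sum_univ_two])
  rw [coeff_f] at h1
  exact one_ne_zero h1

/-! ### The symmetric functions -/

lemma map_X_prod (s : Multiset (Fin 2)) :
    (s.map (X : Fin 2 → MvPolynomial (Fin 2) ℕ)).prod = monomial (Multiset.toFinsupp s) 1 := by
  induction s using Multiset.induction_on with
  | empty => simp
  | cons a s ih =>
    rw [Multiset.map_cons, Multiset.prod_cons, ih, ← Multiset.singleton_add, map_add,
      Multiset.toFinsupp_singleton, X, monomial_mul, one_mul]

lemma hsymm_coeff (k : ℕ) : 1 ≤ coeff (Finsupp.single 0 k) (hsymm (Fin 2) ℕ k) := by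
  rw [hsymm, coeff_sum]
  have h : coeff (Finsupp.single 0 k)
      (((Sym.replicate k (0 : Fin 2)).1.map (X : Fin 2 → MvPolynomial (Fin 2) ℕ)).prod) = 1 := by
    rw [map_X_prod, coeff_monomial, if_pos]
    ext i
    rw [Multiset.toFinsupp_apply]
    show Multiset.count i (Multiset.replicate k 0) = _
    rw [Multiset.count_replicate, Finsupp.single_apply]
  refine h.symm.le.trans ?_
  exact Finset.single_le_sum (f := fun s : Sym (Fin 2) k => coeff (Finsupp.single 0 k)
      ((s.1.map (X : Fin 2 → MvPolynomial (Fin 2) ℕ)).prod)) (fun _ _ => Nat.zero_le _)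
    (Finset.mem_univ _)

lemma map_X_hom (s : Multiset (Fin 2)) :
    ((s.map (X : Fin 2 → MvPolynomial (Fin 2) ℕ)).prod).IsHomogeneous s.card := by
  induction s using Multiset.induction_on with
  | empty => simpa using isHomogeneous_one (Fin 2) ℕ
  | cons a s ih =>
    rw [Multiset.map_cons, Multiset.prod_cons, Multiset.card_cons, add_comm]
    exact (isHomogeneous_X ℕ a).mul ih

lemma hsymm_hom (k : ℕ) : (hsymm (Fin 2) ℕ k).IsHomogeneous k := by
  rw [hsymm]
  refine IsHomogeneous.sum _ _ _ fun s _ => ?_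
  have h := map_X_hom s.1
  rwa [s.2] at h

lemma prod_coeff (s : Multiset ℕ) :
    1 ≤ coeff (Finsupp.single 0 s.sum) ((s.map (hsymm (Fin 2) ℕ)).prod) := by
  induction s using Multiset.induction_on with
  | empty => simp
  | cons k s ih =>
    rw [Multiset.sum_cons, Multiset.map_cons, Multiset.prod_cons, coeff_mul]
    have h1 : (Finsupp.single (0 : Fin 2) k, Finsupp.single (0 : Fin 2) s.sum) ∈
        Finset.HasAntidiagonal.antidiagonal (Finsupp.single (0 : Fin 2) (k + s.sum)) := by
      rw [Finset.HasAntidiagonal.mem_antidiagonal, Finsupp.single_add]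
    refine le_trans ?_ (Finset.single_le_sum (fun _ _ => Nat.zero_le _) h1)
    exact Nat.mul_pos (hsymm_coeff k) ih

lemma prod_hom (s : Multiset ℕ) : ((s.map (hsymm (Fin 2) ℕ)).prod).IsHomogeneous s.sum := by
  induction s using Multiset.induction_on with
  | empty => simpa using isHomogeneous_one (Fin 2) ℕ
  | cons k s ih =>
    rw [Multiset.sum_cons, Multiset.map_cons, Multiset.prod_cons]
    exact (hsymm_hom k).mul ih

lemma not_hPositive : ¬ HPositive f := by
  rintro ⟨a, ha⟩
  have h40 := ha ![4, 0]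
  have h22 := ha ![2, 2]
  rw [dim40, f_td4] at h40
  rw [dim22, f_td4] at h22
  simp only [coeff_sum, coeff_C_mul] at h40 h22
  have e40 : (Finsupp.equivFunOnFinite.symm ![4, 0] : Fin 2 →₀ ℕ) = Finsupp.single 0 4 := by
    ext i; fin_cases i <;> simp
  have z4 : ∀ μ : Nat.Partition 4, a 4 μ = 0 := by
    intro μ
    have h1 := (Finset.sum_eq_zero_iff.mp h40.symm) 4 (by simp)
    have h2 := (Finset.sum_eq_zero_iff.mp h1) μ (by simp)
    have h3 := prod_coeff μ.parts
    rw [μ.parts_sum] at h3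
    rw [e40] at h2
    rcases Nat.mul_eq_zero.mp h2 with h | h
    · exact h
    · rw [hsymmPart] at h
      omega
  have z : ∑ m ∈ Finset.range (4 + 1), ∑ μ : Nat.Partition m,
      a m μ * coeff (Finsupp.equivFunOnFinite.symm ![2, 2]) (hsymmPart (Fin 2) ℕ μ) = 0 := by
    refine Finset.sum_eq_zero fun m _ => Finset.sum_eq_zero fun μ _ => ?_
    by_cases hm : m = 4
    · subst hm
      rw [z4 μ, zero_mul]
    · have h1 := prod_hom μ.parts
      rw [μ.parts_sum] at h1
      rw [hsymmPart, h1.coeff_eq_zero, mul_zero]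
      intro h2
      apply hm
      rw [← h2, Finsupp.degree_eq_sum]
      simp
  rw [z] at h22
  exact one_ne_zero h22

/-- The Hilbert series of polarization modules of homogeneous diagonally symmetric polynomials are
not always `h`-positive: for `l = n = 2` the polynomial `(x₁₁ x₂₂ - x₁₂ x₂₁) ^ 2` is a
counterexample. -/
theorem result :
    (∃ f : R 2 2, f = (X (0, 0) * X (1, 1) - X (0, 1) * X (1, 0)) ^ 2 ∧
      f ∈ homPart 2 ![2, 2] ∧ DiagSymmetric f ∧ ¬ HPositive f) ∧
    ¬ (∀ l n : ℕ, 1 ≤ l → 1 ≤ n → ∀ f : R l n, (∃ d, f ∈ homPart n d) → DiagSymmetric f →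
      HPositive f) :=
  ⟨⟨f, rfl, f_hom, f_symm, not_hPositive⟩, fun h =>
    not_hPositive (h 2 2 (by norm_num) (by norm_num) f ⟨_, f_hom⟩ f_symm)⟩

end Pool.Agent.Results.MP_55095a_co.DetSquare
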